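import Pool.Agent.N554.SL.Transfer
import Pool.Agent.N554.SL.Upper

/-!
# The chromatic number of a thickened plane is seven

For every `k ≥ 4 · 10 ^ 220` and every `ε > 0`, no colouring of `ℝ² × [0, ε]ᵏ` with at most six
colours is proper for the unit distance graph; for small `ε` the chromatic number is exactly `7`.

The lower bound: in a fibre one takes the points of a lattice box that lie in a shell of the box.
By the circle method two subsets of the shell of relative density `1/6` realise every even squared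
distance of a fixed window (`Pool.Agent.N554.SL.cross`), so that the most frequent colours in the
fibres give a colouring of the plane that avoids an interval of distances
(`Pool.Agent.N554.SL.plane_colouring`). The closures of its colour classes contradict the theorem
`Pool.Agent.N466.Pl.euclid_six`.
-/

set_option autoImplicit false

namespace Pool.Agent.Results.MP_75c93e_co.ThickenedPlane

open Finset Pool.Agent.N554.SL

/-- The set `ℝ² × [0, ε]ᵏ` in `ℝ²⁺ᵏ`: the last `k` coordinates lie in `[0, ε]`. -/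
def Slab (k : ℕ) (ε : ℝ) : Set (EuclideanSpace ℝ (Fin (2 + k))) :=
  {x | ∀ i : Fin k, x (Fin.natAdd 2 i) ∈ Set.Icc 0 ε}

/-- The set `X` has a colouring with `m` colours in which points at distance `1` have different
colours. -/
def Colourable {n : ℕ} (X : Set (EuclideanSpace ℝ (Fin n))) (m : ℕ) : Prop :=
  ∃ φ : X → Fin m, ∀ x y : X,
    dist (x : EuclideanSpace ℝ (Fin n)) (y : EuclideanSpace ℝ (Fin n)) = 1 → φ x ≠ φ y

/-- the chromatic number `χ_{1}(X)` -/
noncomputable def chi {n : ℕ} (X : Set (EuclideanSpace ℝ (Fin n))) : ℕ :=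
  sInf {m : ℕ | 0 < m ∧ Colourable X m}

/-- the point of the slab over a point of the plane with a given fibre part -/
noncomputable def pt {k₁ l : ℕ} (u : P2) (s : Fin k₁ → ℝ) :
    EuclideanSpace ℝ (Fin (2 + (k₁ + l))) :=
  WithLp.toLp 2 (Fin.append (fun i : Fin 2 => u i) (Fin.append s (fun _ : Fin l => (0 : ℝ))))

lemma pt_mem {k₁ l : ℕ} {ε : ℝ} (hε : 0 < ε) (u : P2) (s : Fin k₁ → ℝ)
    (hs : ∀ i, 0 ≤ s i ∧ s i ≤ ε) : pt (l := l) u s ∈ Slab (k₁ + l) ε := by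
  intro i
  unfold pt
  simp only [Fin.append_right]
  refine Fin.addCases (fun i => ?_) (fun i => ?_) i
  · rw [Fin.append_left]
    exact ⟨(hs i).1, (hs i).2⟩
  · rw [Fin.append_right]
    exact ⟨le_rfl, hε.le⟩

lemma pt_dist {k₁ l : ℕ} (u v : P2) (s t : Fin k₁ → ℝ) :
    dist (pt (l := l) u s) (pt (l := l) v t) = √(dist u v ^ 2 + ∑ i, (s i - t i) ^ 2) := by
  rw [EuclideanSpace.dist_eq, Fin.sum_univ_add, Fin.sum_univ_add, EuclideanSpace.dist_eq,
    Real.sq_sqrt (Finset.sum_nonneg fun _ _ => sq_nonneg _)]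
  unfold pt
  simp [Fin.append_left, Fin.append_right, Real.dist_eq, sq_abs]

/-- the lower bound with parameters -/
lemma lower {κ T l : ℕ} (hT : 10 ^ 11 ≤ T) (hκ : 10 ^ 22 * T ^ 8 ≤ κ) {ε : ℝ} (hε : 0 < ε) {m : ℕ}
    (h : Colourable (Slab (4 * κ ^ 2 + l) ε) m) : 7 ≤ m := by
  classical
  by_contra hcon
  rw [not_le] at hcon
  obtain ⟨φ, hφ⟩ := h
  have hx : pt (k₁ := 4 * κ ^ 2) (l := l) 0 0 ∈ Slab (4 * κ ^ 2 + l) ε :=
    pt_mem hε 0 0 (fun i => ⟨le_rfl, hε.le⟩)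
  have i0 : Fin m := φ ⟨_, hx⟩
  let c : P2 → (Fin (4 * κ ^ 2) → ℝ) → Fin m := fun u s =>
    if h : pt (l := l) u s ∈ Slab (4 * κ ^ 2 + l) ε then φ ⟨_, h⟩ else i0
  refine no_colouring hT hκ hε hcon c ?_
  intro u v s t hs ht h
  have h1 := pt_mem (l := l) hε u s hs
  have h2 := pt_mem (l := l) hε v t ht
  have h3 := hφ ⟨_, h1⟩ ⟨_, h2⟩ (by rw [pt_dist, h, Real.sqrt_one])
  simp only [c]
  rw [dif_pos h1, dif_pos h2]
  exact h3

/-- the projection to the plane, as a complex number -/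
noncomputable def pr {k : ℕ} (x : EuclideanSpace ℝ (Fin (2 + k))) : ℂ :=
  ⟨x (Fin.castAdd k 0), x (Fin.castAdd k 1)⟩

/-- the upper bound -/
lemma upper {k : ℕ} {ε : ℝ} (hk : k * ε ^ 2 ≤ 1 / 10) : Colourable (Slab k ε) 7 := by
  classical
  have hcov : ∀ z : ℂ, ∃ j : Fin 7, z ∈ Pool.Agent.N466.Pl.wall (j : ℕ) :=
    Pool.Agent.N466.Pl.wall_cover
  choose f hf using hcov
  refine ⟨fun x => f (pr (x : EuclideanSpace ℝ (Fin (2 + k)))), ?_⟩
  rintro ⟨x, hx⟩ ⟨y, hy⟩ hxy heq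
  simp only at hxy heq
  have h1 : ‖pr x - pr y‖ ^ 2 + ∑ i : Fin k, (x (Fin.natAdd 2 i) - y (Fin.natAdd 2 i)) ^ 2 = 1 := by
    rw [EuclideanSpace.dist_eq] at hxy
    have h2 := congrArg (fun r : ℝ => r ^ 2) hxy
    simp only [one_pow] at h2
    rw [Real.sq_sqrt (Finset.sum_nonneg fun _ _ => sq_nonneg _), Fin.sum_univ_add,
      Fin.sum_univ_two] at h2
    simp only [Real.dist_eq, sq_abs] at h2
    rw [Pool.Agent.N466.Pl.sq_dist]
    exact h2
  have h3 : ∑ i : Fin k, (x (Fin.natAdd 2 i) - y (Fin.natAdd 2 i)) ^ 2 ≤ k * ε ^ 2 := by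
    have h4 : ∀ i ∈ (Finset.univ : Finset (Fin k)),
        (x (Fin.natAdd 2 i) - y (Fin.natAdd 2 i)) ^ 2 ≤ ε ^ 2 := by
      intro i _
      have e1 := hx i
      have e2 := hy i
      rw [Set.mem_Icc] at e1 e2
      apply sq_le_sq'
      · linarith [e1.1, e2.2]
      · linarith [e1.2, e2.1]
    refine (Finset.sum_le_sum h4).trans ?_
    simp
  have h5 : 0 ≤ ∑ i : Fin k, (x (Fin.natAdd 2 i) - y (Fin.natAdd 2 i)) ^ 2 :=
    Finset.sum_nonneg fun _ _ => sq_nonneg _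
  have h6 := hf (pr x)
  have h7 := hf (pr y)
  rw [← heq] at h7
  rcases wall_gap _ _ h6 _ h7 with h | h
  · norm_num at h
    linarith
  · linarith

/-- **Theorem.** For every `k ≥ 4 · 10²²⁰`, the chromatic number of `ℝ² × [0, ε]ᵏ` is at least `7`
for every `ε > 0`, and it is equal to `7` for all sufficiently small `ε > 0`. -/
theorem result : ∀ k : ℕ, 4 * 10 ^ 220 ≤ k →
    (∀ ε : ℝ, 0 < ε → ∀ m : ℕ, Colourable (Slab k ε) m → 7 ≤ m) ∧
    ∃ ε₀ : ℝ, 0 < ε₀ ∧ ∀ ε : ℝ, 0 < ε → ε < ε₀ →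
      Colourable (Slab k ε) 7 ∧ chi (Slab k ε) = 7 := by
  intro k hk
  have hlow : ∀ ε : ℝ, 0 < ε → ∀ m : ℕ, Colourable (Slab k ε) m → 7 ≤ m := by
    intro ε hε m h
    obtain ⟨κ, hκ⟩ : ∃ κ : ℕ, κ = 10 ^ 110 := ⟨_, rfl⟩
    obtain ⟨T, hT⟩ : ∃ T : ℕ, T = 10 ^ 11 := ⟨_, rfl⟩
    have h1 : 4 * κ ^ 2 ≤ k := by
      rw [hκ, ← pow_mul]
      exact hk
    obtain ⟨l, rfl⟩ := Nat.exists_eq_add_of_le h1
    refine lower (κ := κ) (T := T) (l := l) hT.ge ?_ hε h
    rw [hκ, hT]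
    norm_num
  refine ⟨hlow, 1 / (4 * (k + 1)), by positivity, fun ε hε hε0 => ?_⟩
  have hup : Colourable (Slab k ε) 7 := by
    apply upper
    have hk0 : (0 : ℝ) ≤ k := Nat.cast_nonneg _
    have h1 : ε * (4 * (k + 1)) ≤ 1 := by
      have := mul_le_mul_of_nonneg_right hε0.le (by positivity : (0 : ℝ) ≤ 4 * (k + 1))
      refine this.trans (le_of_eq ?_)
      field_simp
    have h2 : ε ≤ 1 / 4 := by nlinarith
    have h3 : k * ε ≤ 1 / 4 := by nlinarith
    nlinarith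
  refine ⟨hup, ?_⟩
  apply le_antisymm
  · exact Nat.sInf_le ⟨by norm_num, hup⟩
  · have hne : {m : ℕ | 0 < m ∧ Colourable (Slab k ε) m}.Nonempty := ⟨7, by norm_num, hup⟩
    exact hlow ε hε _ (Nat.sInf_mem hne).2

end Pool.Agent.Results.MP_75c93e_co.ThickenedPlane
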